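import Mathlib
import Pool.Agent.H.MP_f19a21_co.B

namespace Pool.Agent.Results.MP_f19a21_co.Full

open SimpleGraph Filter Pool.Agent.H.MP_f19a21_co

def cyclePow (n r : ℕ) : SimpleGraph (Fin n) :=
  SimpleGraph.fromRel (fun a b => (a - b).val ≤ r)

noncomputable def f (n r : ℕ) : ℕ :=
  sInf {m | ∀ F : SimpleGraph (Fin n), F ≤ cyclePow n r → F.edgeSet.ncard = m → ¬ F.CliqueFree 3}

noncomputable def c : ℝ :=
  limsup (fun r : ℕ => limsup (fun n : ℕ => (f n r : ℝ) / (r * n)) atTop) atTop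

theorem near {n r : ℕ} {F : SimpleGraph (Fin n)} (h : F ≤ cyclePow n r) (a b : Fin n)
    (hab : F.Adj a b) : (a - b).val ≤ r ∨ (b - a).val ≤ r :=
  ((fromRel_adj _ _ _).1 (h hab)).2

theorem big_mem (n r : ℕ) : r * n + 1 ∈ {m | ∀ F : SimpleGraph (Fin n), F ≤ cyclePow n r →
    F.edgeSet.ncard = m → ¬ F.CliqueFree 3} := by
  intro F hF h
  have := edges_le F (near hF)
  omega

theorem f_le (n r : ℕ) : f n r ≤ r * n + 1 := Nat.sInf_le (big_mem n r)

theorem f_spec {n r : ℕ} {F : SimpleGraph (Fin n)} (h : F ≤ cyclePow n r)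
    (hm : f n r ≤ F.edgeSet.ncard) : ¬ F.CliqueFree 3 := by
  obtain ⟨F', h1, h2⟩ := sub_edges F _ hm
  intro hF
  exact Nat.sInf_mem ⟨_, big_mem n r⟩ F' (h1.trans h) h2 (hF.anti h1)

theorem ratio_le (n r : ℕ) : (f n r : ℝ) / (r * n) ≤ 2 := by
  rcases Nat.eq_zero_or_pos (r * n) with h | h
  · have : (r : ℝ) * n = 0 := by exact_mod_cast h
    simp [this]
  · have h1 : (1 : ℝ) ≤ r * n := by exact_mod_cast h
    have h2 : (f n r : ℝ) ≤ r * n + 1 := by exact_mod_cast f_le n r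
    rw [div_le_iff₀ (by linarith)]
    linarith

theorem result : ∀ (W : Type) [Fintype W] (H : SimpleGraph W), H.chromaticNumber = 3 →
    ∀ ε : ℝ, 0 < ε → ∃ r₀ : ℕ, ∀ r ≥ r₀, ∃ n₀ : ℕ, ∀ n ≥ n₀, ∀ F : SimpleGraph (Fin n),
      F ≤ cyclePow n r → (c + ε) * r * n ≤ F.edgeSet.ncard → H ⊑ F.induce F.support := by
  intro W _ H hH ε hε
  have hcol : H.Colorable 3 := chromaticNumber_le_iff_colorable.1 (le_of_eq hH)
  obtain ⟨r1, hr1⟩ := glob (ε / 2) (by positivity) (Fintype.card W + 1)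
  have hin : ∀ r : ℕ, limsup (fun n : ℕ => (f n r : ℝ) / (r * n)) atTop ≤ 2 := fun r =>
    limsup_le_of_le (isCoboundedUnder_le_of_le atTop (x := 0) (fun n => by positivity))
      (Eventually.of_forall (fun n => ratio_le n r))
  have h1 : ∀ᶠ r : ℕ in atTop, limsup (fun n : ℕ => (f n r : ℝ) / (r * n)) atTop < c + ε / 2 :=
    eventually_lt_of_limsup_lt (by unfold c; linarith) (isBoundedUnder_of ⟨2, hin⟩)
  obtain ⟨r2, hr2⟩ := eventually_atTop.1 h1
  refine ⟨r1 + r2 + 1, fun r hr => ?_⟩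
  have h2 : ∀ᶠ n : ℕ in atTop, (f n r : ℝ) / (r * n) < c + ε / 2 :=
    eventually_lt_of_limsup_lt (hr2 r (by omega)) (isBoundedUnder_of ⟨2, fun n => ratio_le n r⟩)
  obtain ⟨n1, hn1⟩ := eventually_atTop.1 h2
  refine ⟨n1 + 3 * r + 1, fun n hn F hF hE => emb F H hcol ?_⟩
  by_contra hc
  obtain ⟨F', hle, hfree, hcard⟩ := hr1 r (by omega) n (by omega) F (near hF) hc
  refine f_spec (hle.trans hF) ?_ hfree
  have h3 := hn1 n (by omega)
  have h4 : (0 : ℝ) < r * n := by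
    have : 0 < r * n := Nat.mul_pos (by omega) (by omega)
    exact_mod_cast this
  rw [div_lt_iff₀ h4] at h3
  have : (f n r : ℝ) ≤ F'.edgeSet.ncard := by nlinarith
  exact_mod_cast this

end Pool.Agent.Results.MP_f19a21_co.Full
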